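import Pool.Agent.Helper68.LM2.St

/-!
# LM2, module RHO: averages in the first variable, basic facts
-/

set_option autoImplicit false

open MeasureTheory Set Filter Topology
open scoped ENNReal

namespace Pool.Agent.Helper29.LM2

open Pool.Agent.Helper68.LM2 Pool.Agent.Helper68.LM

/-! ## general averages in the first variable -/

section gen

variable {ρ : Measure ℝ}

theorem rh_meas [SFinite ρ] (k : ℤ) {g : ℝ × ℝ → ℝ} (hg : Measurable g) :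
    Measurable (Rh ρ k g) := by
  have h : StronglyMeasurable (fun p : (ℝ × ℝ) × ℝ => g (p.1.1 - (2 : ℝ) ^ k * p.2, p.1.2)) :=
    (hg.comp (by fun_prop)).stronglyMeasurable
  exact (h.integral_prod_right').measurable

theorem fib_int [IsFiniteMeasure ρ] (k : ℤ) {g : ℝ × ℝ → ℝ} (hg : BR g) (z : ℝ × ℝ) :
    Integrable (fun s => g (z.1 - (2 : ℝ) ^ k * s, z.2)) ρ := by
  obtain ⟨hm, K, hK, -⟩ := hg
  refine Integrable.of_bound ((hm.comp (by fun_prop)).aestronglyMeasurable) K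
    (Eventually.of_forall fun s => ?_)
  exact hK _

theorem rh_add [IsFiniteMeasure ρ] (k : ℤ) {g h : ℝ × ℝ → ℝ} (hg : BR g) (hh : BR h)
    (z : ℝ × ℝ) : Rh ρ k (fun w => g w + h w) z = Rh ρ k g z + Rh ρ k h z := by
  unfold Rh
  exact integral_add (fib_int k hg z) (fib_int k hh z)

theorem rh_sub [IsFiniteMeasure ρ] (k : ℤ) {g h : ℝ × ℝ → ℝ} (hg : BR g) (hh : BR h)
    (z : ℝ × ℝ) : Rh ρ k (fun w => g w - h w) z = Rh ρ k g z - Rh ρ k h z := by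
  unfold Rh
  exact integral_sub (fib_int k hg z) (fib_int k hh z)

theorem rh_BR [IsFiniteMeasure ρ] (hρ : ρ (Icc (-2 : ℝ) 2)ᶜ = 0) (k : ℤ) {g : ℝ × ℝ → ℝ}
    (hg : BR g) : BR (Rh ρ k g) := by
  obtain ⟨hm, K, hK, hK0⟩ := hg
  have h2k : (0 : ℝ) < (2 : ℝ) ^ k := by positivity
  refine ⟨rh_meas k hm, max (K * ρ.real univ) (K + 2 * (2 : ℝ) ^ k), fun z => ?_,
    fun z hz => ?_⟩
  · refine le_trans ?_ (le_max_left _ _)
    have := norm_integral_le_of_norm_le_const (μ := ρ)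
      (f := fun s => g (z.1 - (2 : ℝ) ^ k * s, z.2)) (C := K)
      (Eventually.of_forall fun s => hK _)
    exact this
  · have h1 : ∀ᵐ s ∂ρ, s ∈ Icc (-2 : ℝ) 2 := hρ
    have h0 : (fun s => g (z.1 - (2 : ℝ) ^ k * s, z.2)) =ᵐ[ρ] fun _ => (0 : ℝ) := by
      filter_upwards [h1] with s hs
      apply hK0
      have hz' : K + 2 * (2 : ℝ) ^ k < ‖z‖ := (le_max_right _ _).trans_lt hz
      have h3 : ‖z‖ ≤ ‖((z.1 - (2 : ℝ) ^ k * s, z.2) : ℝ × ℝ)‖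
          + ‖(((2 : ℝ) ^ k * s, 0) : ℝ × ℝ)‖ := by
        have e : z = ((z.1 - (2 : ℝ) ^ k * s, z.2) : ℝ × ℝ) + ((2 : ℝ) ^ k * s, 0) := by
          ext <;> simp
        conv_lhs => rw [e]
        exact norm_add_le _ _
      have h4 : ‖(((2 : ℝ) ^ k * s, 0) : ℝ × ℝ)‖ ≤ 2 * (2 : ℝ) ^ k := by
        rw [Prod.norm_def, norm_zero]
        apply max_le
        · rw [Real.norm_eq_abs, abs_mul, abs_of_pos h2k]
          have : |s| ≤ 2 := abs_le.2 hs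
          nlinarith
        · positivity
      linarith
    unfold Rh
    rw [integral_congr_ae h0, integral_zero]

/-- Jensen's inequality for a measure on the line -/
theorem jens (μ : Measure ℝ) {p : ℝ} (hp : 1 ≤ p) {f : ℝ → ℝ≥0∞} (hf : AEMeasurable f μ) :
    (∫⁻ s, f s ∂μ) ^ p ≤ μ univ ^ (p - 1) * ∫⁻ s, f s ^ p ∂μ := by
  rcases eq_or_lt_of_le hp with rfl | hp1
  · simp
  · have hp0 : 0 < p := by linarith
    have hpq := Real.HolderConjugate.conjExponent hp1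
    have h1 := ENNReal.lintegral_mul_le_Lp_mul_Lq μ hpq hf
      (aemeasurable_const (b := (1 : ℝ≥0∞)))
    simp only [Pi.mul_apply, mul_one, ENNReal.one_rpow, lintegral_const, one_mul] at h1
    calc (∫⁻ s, f s ∂μ) ^ p
        ≤ ((∫⁻ s, f s ^ p ∂μ) ^ (1 / p) * (μ univ) ^ (1 / p.conjExponent)) ^ p :=
          ENNReal.rpow_le_rpow h1 hp0.le
      _ = μ univ ^ (p - 1) * ∫⁻ s, f s ^ p ∂μ := by
          rw [ENNReal.mul_rpow_of_nonneg _ _ hp0.le, ← ENNReal.rpow_mul, ← ENNReal.rpow_mul,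
            one_div_mul_cancel hp0.ne', ENNReal.rpow_one, mul_comm]
          congr 2
          unfold Real.conjExponent
          have : p - 1 ≠ 0 := by linarith
          field_simp

theorem rh_Lp [IsFiniteMeasure ρ] (k : ℤ) {p : ℝ} (hp : 1 ≤ p) {g : ℝ × ℝ → ℝ}
    (hg : Measurable g) :
    ∫⁻ z, ‖Rh ρ k g z‖ₑ ^ p ≤ ρ univ ^ p * ∫⁻ z, ‖g z‖ₑ ^ p := by
  have hm0 : Measurable (fun w : (ℝ × ℝ) × ℝ => g (w.1.1 - (2 : ℝ) ^ k * w.2, w.1.2)) :=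
    hg.comp (by fun_prop)
  have hm : Measurable
      (fun w : (ℝ × ℝ) × ℝ => ‖g (w.1.1 - (2 : ℝ) ^ k * w.2, w.1.2)‖ₑ ^ p) :=
    hm0.enorm.pow_const p
  calc ∫⁻ z, ‖Rh ρ k g z‖ₑ ^ p
      ≤ ∫⁻ z : ℝ × ℝ, ρ univ ^ (p - 1)
          * ∫⁻ s, ‖g (z.1 - (2 : ℝ) ^ k * s, z.2)‖ₑ ^ p ∂ρ := by
        apply lintegral_mono
        intro z
        refine (ENNReal.rpow_le_rpow (enorm_integral_le_lintegral_enorm _)
          (by linarith)).trans ?_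
        apply jens ρ hp
        have : Measurable (fun s : ℝ => g (z.1 - (2 : ℝ) ^ k * s, z.2)) :=
          hg.comp (by fun_prop)
        exact this.enorm.aemeasurable
    _ = ρ univ ^ (p - 1) * ∫⁻ z : ℝ × ℝ,
          ∫⁻ s, ‖g (z.1 - (2 : ℝ) ^ k * s, z.2)‖ₑ ^ p ∂ρ := by
        rw [lintegral_const_mul]
        exact hm.lintegral_prod_right'
    _ = ρ univ ^ (p - 1) * ∫⁻ s, (∫⁻ z : ℝ × ℝ,
          ‖g (z.1 - (2 : ℝ) ^ k * s, z.2)‖ₑ ^ p) ∂ρ := by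
        rw [lintegral_lintegral_swap]
        exact hm.aemeasurable
    _ = ρ univ ^ (p - 1) * ∫⁻ _s, (∫⁻ z : ℝ × ℝ, ‖g z‖ₑ ^ p) ∂ρ := by
        congr 1
        apply lintegral_congr
        intro s
        have h1 := lintegral_sub_right_eq_self (μ := (volume : Measure (ℝ × ℝ)))
          (fun z : ℝ × ℝ => ‖g z‖ₑ ^ p) ((2 : ℝ) ^ k * s, 0)
        rw [← h1]
        apply lintegral_congr
        intro z
        have e : z - ((2 : ℝ) ^ k * s, (0 : ℝ)) = (z.1 - (2 : ℝ) ^ k * s, z.2) := by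
          ext <;> simp
        rw [e]
    _ = ρ univ ^ p * ∫⁻ z, ‖g z‖ₑ ^ p := by
        rw [lintegral_const, mul_comm (∫⁻ z : ℝ × ℝ, ‖g z‖ₑ ^ p), ← mul_assoc]
        congr 1
        have h1 := ENNReal.rpow_add_of_nonneg (x := ρ univ) (p - 1) 1 (by linarith) zero_le_one
        rw [ENNReal.rpow_one] at h1
        rw [← h1]
        congr 1
        ring

theorem rh_E2 [IsFiniteMeasure ρ] (hEA : StEA) (k m : ℤ) {g : ℝ × ℝ → ℝ} (hg : BR g)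
    (z : ℝ × ℝ) : E2 m (Rh ρ k g) z = Rh ρ k (E2 m g) z := by
  obtain ⟨-, -, hc3, -⟩ := hEA.2.1 m z.2
  unfold E2 E1 Rh
  simp only
  rw [integral_const_mul]
  congr 1
  have : IsFiniteMeasure (volume.restrict (cell m z.2)) :=
    ⟨by rw [Measure.restrict_apply_univ, hc3]; exact ENNReal.ofReal_lt_top⟩
  apply integral_integral_swap (f := fun y s => g (z.1 - (2 : ℝ) ^ k * s, y))
  obtain ⟨hm, K, hK, -⟩ := hg
  refine Integrable.of_bound ?_ K (Eventually.of_forall fun s => hK _)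
  have : Measurable (fun w : ℝ × ℝ => g (z.1 - (2 : ℝ) ^ k * w.2, w.1)) :=
    hm.comp (by fun_prop)
  exact this.aestronglyMeasurable

end gen

/-! ## scaling on the line -/

theorem scale {c : ℝ} (hc : 0 < c) (F : ℝ → ℝ≥0∞) (S : Set ℝ) :
    ∫⁻ s in S, F s = ENNReal.ofReal c * ∫⁻ t in (fun t => c * t) ⁻¹' S, F (c * t) := by
  have hme : MeasurableEmbedding (fun t : ℝ => c * t) :=
    (Homeomorph.mulLeft₀ c hc.ne').measurableEmbedding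
  have h1 := Real.smul_map_volume_mul_left hc.ne'
  rw [abs_of_pos hc] at h1
  conv_lhs => rw [← h1]
  rw [Measure.restrict_smul, lintegral_smul_measure, smul_eq_mul, hme.restrict_map,
    hme.lintegral_map]

theorem inner_le (W : ℝ → ℝ≥0∞) (i : ℤ) (y : ℝ) :
    ∫⁻ α in Icc (-1 : ℝ) 1, W (y + (2 : ℝ) ^ i * α) ≤ Mx W y := by
  have hc : (0 : ℝ) < (2 : ℝ) ^ i := by positivity
  have h1 := scale hc (fun s => W (y + s)) (Icc (-((2 : ℝ) ^ i)) ((2 : ℝ) ^ i))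
  have h2 : (fun t : ℝ => (2 : ℝ) ^ i * t) ⁻¹' Icc (-((2 : ℝ) ^ i)) ((2 : ℝ) ^ i)
      = Icc (-1 : ℝ) 1 := by
    ext t
    simp only [mem_preimage, mem_Icc]
    constructor
    · rintro ⟨h3, h4⟩
      constructor <;> nlinarith
    · rintro ⟨h3, h4⟩
      constructor <;> nlinarith
  rw [h2] at h1
  have h3 : ENNReal.ofReal ((2 : ℝ) ^ (-i)) * ENNReal.ofReal ((2 : ℝ) ^ i) = 1 := by
    rw [← ENNReal.ofReal_mul (by positivity), zpow_neg, inv_mul_cancel₀ hc.ne',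
      ENNReal.ofReal_one]
  calc ∫⁻ α in Icc (-1 : ℝ) 1, W (y + (2 : ℝ) ^ i * α)
      = ENNReal.ofReal ((2 : ℝ) ^ (-i)) *
        ∫⁻ s in Icc (-((2 : ℝ) ^ i)) ((2 : ℝ) ^ i), W (y + s) := by
        rw [h1, ← mul_assoc, h3, one_mul]
    _ ≤ Mx W y := by
        unfold Mx
        exact le_iSup (fun i : ℤ => ENNReal.ofReal ((2 : ℝ) ^ (-i)) *
          ∫⁻ s in Icc (-((2 : ℝ) ^ i)) ((2 : ℝ) ^ i), W (y + s)) i

theorem outer_le (G : ℝ → ℝ≥0∞) (k : ℤ) (x : ℝ) {a : ℝ} (ha : 0 < a) :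
    ∫⁻ t in Icc (0 : ℝ) a, G (x + (2 : ℝ) ^ k * t) ≤ ENNReal.ofReal (2 * a) * Mx G x := by
  have hc : (0 : ℝ) < (2 : ℝ) ^ k := by positivity
  have h1 := scale hc (fun s => G (x + s)) (Icc (0 : ℝ) ((2 : ℝ) ^ k * a))
  have h2 : (fun t : ℝ => (2 : ℝ) ^ k * t) ⁻¹' Icc (0 : ℝ) ((2 : ℝ) ^ k * a)
      = Icc (0 : ℝ) a := by
    ext t
    simp only [mem_preimage, mem_Icc]
    constructor
    · rintro ⟨h3, h4⟩
      exact ⟨nonneg_of_mul_nonneg_right h3 hc, le_of_mul_le_mul_left h4 hc⟩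
    · rintro ⟨h3, h4⟩
      exact ⟨by positivity, mul_le_mul_of_nonneg_left h4 hc.le⟩
  rw [h2] at h1
  obtain ⟨n, hn1, hn2⟩ := exists_mem_Ioc_zpow (x := (2 : ℝ) ^ k * a) (y := 2) (by positivity)
    (by norm_num)
  have h3 : ENNReal.ofReal ((2 : ℝ) ^ (-k)) * ENNReal.ofReal ((2 : ℝ) ^ k) = 1 := by
    rw [← ENNReal.ofReal_mul (by positivity), zpow_neg, inv_mul_cancel₀ hc.ne',
      ENNReal.ofReal_one]
  have hn0 : (0 : ℝ) < (2 : ℝ) ^ (n + 1) := by positivity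
  have h4 : ENNReal.ofReal ((2 : ℝ) ^ (n + 1)) * ENNReal.ofReal ((2 : ℝ) ^ (-(n + 1))) = 1 := by
    rw [← ENNReal.ofReal_mul (by positivity), zpow_neg, mul_inv_cancel₀ hn0.ne',
      ENNReal.ofReal_one]
  calc ∫⁻ t in Icc (0 : ℝ) a, G (x + (2 : ℝ) ^ k * t)
      = ENNReal.ofReal ((2 : ℝ) ^ (-k)) *
        ∫⁻ s in Icc (0 : ℝ) ((2 : ℝ) ^ k * a), G (x + s) := by
        rw [h1, ← mul_assoc, h3, one_mul]
    _ ≤ ENNReal.ofReal ((2 : ℝ) ^ (-k)) *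
        ∫⁻ s in Icc (-((2 : ℝ) ^ (n + 1))) ((2 : ℝ) ^ (n + 1)), G (x + s) := by
        gcongr
        · linarith
    _ = ENNReal.ofReal ((2 : ℝ) ^ (-k)) * (ENNReal.ofReal ((2 : ℝ) ^ (n + 1)) *
        (ENNReal.ofReal ((2 : ℝ) ^ (-(n + 1))) *
        ∫⁻ s in Icc (-((2 : ℝ) ^ (n + 1))) ((2 : ℝ) ^ (n + 1)), G (x + s))) := by
        rw [← mul_assoc (ENNReal.ofReal ((2 : ℝ) ^ (n + 1))), h4, one_mul]
    _ ≤ ENNReal.ofReal ((2 : ℝ) ^ (-k)) * (ENNReal.ofReal ((2 : ℝ) ^ (n + 1)) * Mx G x) := by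
        gcongr
        unfold Mx
        exact le_iSup (fun i : ℤ => ENNReal.ofReal ((2 : ℝ) ^ (-i)) *
          ∫⁻ s in Icc (-((2 : ℝ) ^ i)) ((2 : ℝ) ^ i), G (x + s)) (n + 1)
    _ ≤ ENNReal.ofReal (2 * a) * Mx G x := by
        rw [← mul_assoc, ← ENNReal.ofReal_mul (by positivity)]
        refine mul_le_mul' (ENNReal.ofReal_le_ofReal ?_) le_rfl
        rw [zpow_add₀ (by norm_num : (2 : ℝ) ≠ 0), zpow_one, zpow_neg]
        have h5 : ((2 : ℝ) ^ k)⁻¹ * ((2 : ℝ) ^ n * 2) ≤ ((2 : ℝ) ^ k)⁻¹ * ((2 : ℝ) ^ k * a * 2) := by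
          gcongr
        have h6 : ((2 : ℝ) ^ k)⁻¹ * ((2 : ℝ) ^ k * a * 2) = 2 * a := by
          field_simp
        linarith

/-! ## the measures -/

instance fin_rho (τ : ℕ → ℝ) (m₀ n : ℕ) : IsFiniteMeasure (rho τ m₀ n) := by
  unfold rho
  infer_instance

theorem seq_anti {τ : ℕ → ℝ} {m₀ : ℕ} (hτ : Seq τ m₀) (n : ℕ) : τ (n + 1) < τ n :=
  hτ.1 (Nat.lt_succ_self n)

theorem rho_univ {τ : ℕ → ℝ} {m₀ : ℕ} (hτ : Seq τ m₀) (n : ℕ) :
    rho τ m₀ n univ = ENNReal.ofReal (2 * (τ n - τ (n + 1))) := by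
  have h := seq_anti hτ n
  unfold rho
  rw [Measure.map_apply (by fun_prop) MeasurableSet.univ, preimage_univ, ← univ_prod_univ,
    Measure.prod_prod, Measure.restrict_apply_univ, Measure.restrict_apply_univ,
    Real.volume_Icc, Real.volume_Icc, ← ENNReal.ofReal_mul (by linarith)]
  congr 1
  ring

theorem rho_supp {τ : ℕ → ℝ} {m₀ : ℕ} (hτ : Seq τ m₀) (n : ℕ) :
    rho τ m₀ n (Icc (-2 : ℝ) 2)ᶜ = 0 := by
  have h0 : τ n ≤ 1 := (hτ.1.antitone (Nat.zero_le n)).trans hτ.2.2.1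
  have h1 : 0 < τ (n + 1) := hτ.2.1 (n + 1)
  have h2 : (0 : ℝ) < (2⁻¹ : ℝ) ^ (m₀ + n) := by positivity
  have h3 : (2⁻¹ : ℝ) ^ (m₀ + n) ≤ 1 := pow_le_one₀ (by norm_num) (by norm_num)
  have hm : Measurable (fun w : ℝ × ℝ => w.1 + (2⁻¹ : ℝ) ^ (m₀ + n) * w.2) := by fun_prop
  unfold rho
  rw [Measure.map_apply hm measurableSet_Icc.compl, Measure.prod_restrict,
    Measure.restrict_apply (hm measurableSet_Icc.compl)]
  have e : (fun w : ℝ × ℝ => w.1 + (2⁻¹ : ℝ) ^ (m₀ + n) * w.2) ⁻¹' (Icc (-2 : ℝ) 2)ᶜ ∩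
      Icc (τ (n + 1)) (τ n) ×ˢ Icc (-1 : ℝ) 1 = ∅ := by
    rw [Set.eq_empty_iff_forall_notMem]
    rintro ⟨t, α⟩ ⟨h4, h5', h7'⟩
    obtain ⟨h5, h6⟩ : τ (n + 1) ≤ t ∧ t ≤ τ n := h5'
    have h7 : -1 ≤ α ∧ α ≤ 1 := h7'
    apply h4
    show -2 ≤ t + (2⁻¹ : ℝ) ^ (m₀ + n) * α ∧ t + (2⁻¹ : ℝ) ^ (m₀ + n) * α ≤ 2
    have h8 : |(2⁻¹ : ℝ) ^ (m₀ + n) * α| ≤ 1 := by
      rw [abs_mul, abs_of_pos h2]
      have : |α| ≤ 1 := abs_le.2 h7
      nlinarith [abs_nonneg α]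
    have h9 := abs_le.1 h8
    constructor <;> linarith
  rw [e, measure_empty]

theorem rho_lint {τ : ℕ → ℝ} {m₀ : ℕ} (n : ℕ) (k : ℤ) {w : ℝ × ℝ → ℝ≥0∞} (hw : Measurable w)
    (z : ℝ × ℝ) : ∫⁻ s, w (z.1 + (2 : ℝ) ^ k * s, z.2) ∂(rho τ m₀ n) ≤
      ∫⁻ t in Icc (τ (n + 1)) (τ n), Mx (fun a => w (a, z.2)) (z.1 + (2 : ℝ) ^ k * t) := by
  have hm1 : Measurable (fun s : ℝ => w (z.1 + (2 : ℝ) ^ k * s, z.2)) := hw.comp (by fun_prop)
  have hm2 : Measurable (fun v : ℝ × ℝ => v.1 + (2⁻¹ : ℝ) ^ (m₀ + n) * v.2) := by fun_prop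
  unfold rho
  rw [lintegral_map hm1 hm2, lintegral_prod (fun v : ℝ × ℝ =>
    w (z.1 + (2 : ℝ) ^ k * (v.1 + (2⁻¹ : ℝ) ^ (m₀ + n) * v.2), z.2))
    (hm1.comp hm2).aemeasurable]
  apply lintegral_mono
  intro t
  have h1 := inner_le (fun a => w (a, z.2)) (k - ((m₀ + n : ℕ) : ℤ)) (z.1 + (2 : ℝ) ^ k * t)
  refine le_trans (le_of_eq ?_) h1
  apply lintegral_congr
  intro α
  have e : z.1 + (2 : ℝ) ^ k * (t + (2⁻¹ : ℝ) ^ (m₀ + n) * α)
      = z.1 + (2 : ℝ) ^ k * t + (2 : ℝ) ^ (k - ((m₀ + n : ℕ) : ℤ)) * α := by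
    rw [zpow_sub₀ (by norm_num : (2 : ℝ) ≠ 0), zpow_natCast, inv_pow]
    ring
  rw [e]

theorem sum_Icc {τ : ℕ → ℝ} {m₀ : ℕ} (hτ : Seq τ m₀) (j N : ℕ) (H : ℝ → ℝ≥0∞) :
    ∑ n ∈ Finset.Ico j N, ∫⁻ t in Icc (τ (n + 1)) (τ n), H t ≤ ∫⁻ t in Icc 0 (τ j), H t := by
  rcases le_total N j with hN | hN
  · rw [Finset.Ico_eq_empty_of_le hN, Finset.sum_empty]
    exact bot_le
  · have key : ∑ n ∈ Finset.Ico j N, ∫⁻ t in Icc (τ (n + 1)) (τ n), H t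
        = ∫⁻ t in Ioc (τ N) (τ j), H t := by
      induction N, hN using Nat.le_induction with
      | base => simp
      | succ N hN ih =>
        rw [Finset.sum_Ico_succ_top hN, ih]
        have h1 : Ioc (τ (N + 1)) (τ j) = Ioc (τ (N + 1)) (τ N) ∪ Ioc (τ N) (τ j) :=
          (Ioc_union_Ioc_eq_Ioc (seq_anti hτ N).le (hτ.1.antitone hN)).symm
        have h2 : Disjoint (Ioc (τ (N + 1)) (τ N)) (Ioc (τ N) (τ j)) := by
          rw [Set.disjoint_left]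
          intro x hx hx'
          exact absurd hx.2 (not_le.2 hx'.1)
        have h3 : ∫⁻ t in Icc (τ (N + 1)) (τ N), H t = ∫⁻ t in Ioc (τ (N + 1)) (τ N), H t := by
          rw [Measure.restrict_congr_set (Ioc_ae_eq_Icc (μ := volume)).symm]
        rw [h1, lintegral_union measurableSet_Ioc h2, h3, add_comm]
    rw [key]
    apply lintegral_mono_set
    intro x hx
    exact ⟨((hτ.2.1 N).trans hx.1).le, hx.2⟩

theorem hRHO (hEA : StEA) (hEB : StEB) : StRHO := by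
  intro τ m₀ hτ
  obtain ⟨-, eb2, -, eb4, -, -, eb7, -, -⟩ := hEB
  have hBR : ∀ (n : ℕ) (k : ℤ) (g : ℝ × ℝ → ℝ), BR g → BR (Rh (rho τ m₀ n) k g) :=
    fun n k g hg => rh_BR (rho_supp hτ n) k hg
  refine ⟨rho_univ hτ, rho_supp hτ, hBR, ?_, ?_, ?_, ?_, ?_, ?_, ?_⟩
  · intro n k p g hp hg
    have h1 := rh_Lp (ρ := rho τ m₀ n) k hp hg.1
    rw [rho_univ hτ n, ENNReal.ofReal_rpow_of_nonneg (by linarith [seq_anti hτ n])
      (by linarith)] at h1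
    exact h1
  · intro n k m g z hg
    exact rh_E2 hEA k m hg z
  · intro k j N w z hw
    have h1 : ∑ n ∈ Finset.Ico j N, ∫⁻ s, w (z.1 + (2 : ℝ) ^ k * s, z.2) ∂(rho τ m₀ n) ≤
        ∑ n ∈ Finset.Ico j N, ∫⁻ t in Icc (τ (n + 1)) (τ n),
          Mx (fun a => w (a, z.2)) (z.1 + (2 : ℝ) ^ k * t) :=
      Finset.sum_le_sum (fun n _ => rho_lint n k hw z)
    refine h1.trans ((sum_Icc hτ j N _).trans ?_)
    refine (outer_le (Mx (fun a => w (a, z.2))) k z.1 (hτ.2.1 j)).trans ?_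
    have e : M1 (M1 w) z = Mx (Mx (fun a => w (a, z.2))) z.1 := rfl
    rw [e]
    refine mul_le_mul' (ENNReal.ofReal_le_ofReal ?_) le_rfl
    linarith [hτ.2.1 j]
  · intro n k g h z hg hh
    exact rh_add k hg hh z
  · intro n k g hg
    exact ⟨hBR n k _ (eb4 _ g hg).1, hBR n k _ (eb2 _ _ (eb4 _ g hg).1 (eb4 _ g hg).1).2⟩
  · intro n k g h z hg hh
    have b1 := (eb2 _ _ (eb4 (k - (m₀ : ℤ) - (n : ℤ) + 2) g hg).1 (eb4 (k - (m₀ : ℤ) + 2) g hg).1).2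
    have b2 := (eb2 _ _ (eb4 (k - (m₀ : ℤ) - (n : ℤ) + 2) h hh).1 (eb4 (k - (m₀ : ℤ) + 2) h hh).1).2
    constructor
    · have h1 := rh_add (ρ := rho τ m₀ n) k b1 b2 z
      unfold Vc
      rw [← h1]
      congr 1
      funext v
      rw [(eb7 _ g h v hg hh).1, (eb7 _ g h v hg hh).1]
      ring
    · have h1 := rh_sub (ρ := rho τ m₀ n) k b1 b2 z
      unfold Vc
      rw [← h1]
      congr 1
      funext v
      rw [(eb7 _ g h v hg hh).2, (eb7 _ g h v hg hh).2]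
      ring
  · intro n k g z hg
    have b1 := (eb2 _ _ (eb4 (k - (m₀ : ℤ) - (n : ℤ) + 2) g hg).1 (eb4 (k - (m₀ : ℤ) + 2) g hg).1).2
    have h1 := rh_add (ρ := rho τ m₀ n) k b1 (eb4 (k - (m₀ : ℤ) + 2) g hg).1 z
    unfold Vn Vc
    rw [← h1]
    congr 1
    funext v
    ring

end Pool.Agent.Helper29.LM2
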